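import Pool.Agent.LFO.Tower

/-!
Affine holonomy and orders that violate the Conrad condition.
-/

open scoped commutatorElement

namespace LFO

universe u v w

section Aff

variable {X : Type u} {Q : Type v} [Group Q] (p : FreeGroup X →* Q)

open Classical in
/-- affine edge labels -/
noncomputable def affL (l : (Q × X →₀ ℤ) →+ ℤ) (j0 : Q × X) (q : ℝ) (hq : 0 < q)
    (j : Q × X) : Equiv.Perm ℝ where
  toFun r := q ^ (l (Finsupp.single j 1)) * r + (if j = j0 then 1 else 0)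
  invFun r := q ^ (-(l (Finsupp.single j 1))) * (r - (if j = j0 then 1 else 0))
  left_inv r := by
    beta_reduce
    rw [add_sub_cancel_right, ← mul_assoc, ← zpow_add₀ hq.ne', neg_add_cancel, zpow_zero, one_mul]
  right_inv r := by
    beta_reduce
    rw [← mul_assoc, ← zpow_add₀ hq.ne', add_neg_cancel, zpow_zero, one_mul, sub_add_cancel]

variable (l : (Q × X →₀ ℤ) →+ ℤ) (j0 : Q × X) (q : ℝ) (hq : 0 < q)

open Classical in
lemma affL_apply (j : Q × X) (r : ℝ) : affL l j0 q hq j r =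
    q ^ (l (Finsupp.single j 1)) * r + (if j = j0 then 1 else 0) := rfl

open Classical in
lemma affL_inv_apply (j : Q × X) (r : ℝ) : (affL l j0 q hq j)⁻¹ r =
    q ^ (-(l (Finsupp.single j 1))) * (r - (if j = j0 then 1 else 0)) := rfl

lemma hol_aff (w : FreeGroup X) : ∀ (u : Q) (r : ℝ), hol p (affL l j0 q hq) w u r =
    q ^ (l (ch p w u)) * r + hol p (affL l j0 q hq) w u 0 := by
  induction w with
  | C1 => intro u r; simp [hol_one, ch_one]
  | of s => intro u r; simp [hol_of, ch_of, affL_apply]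
  | inv_of s _ =>
    intro u r
    rw [hol_of_inv, ch_of_inv, affL_inv_apply, affL_inv_apply, map_neg]
    ring
  | mul x y hx hy =>
    intro u r
    rw [hol_mul, ch_mul, Equiv.Perm.mul_apply, Equiv.Perm.mul_apply, hy, hx,
      hx (p y * u) (hol p (affL l j0 q hq) y u 0), map_add, zpow_add₀ hq.ne']
    ring

lemma hol_aff_one (w : FreeGroup X) : ∀ u : Q,
    hol p (affL l j0 1 one_pos) w u 0 = ((ch p w u j0 : ℤ) : ℝ) := by
  classical
  induction w with
  | C1 => intro u; simp [hol_one, ch_one]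
  | of s =>
    intro u
    rw [hol_of, ch_of, affL_apply, Finsupp.single_apply]
    split_ifs <;> simp
  | inv_of s _ =>
    intro u
    rw [hol_of_inv, ch_of_inv, affL_inv_apply, Finsupp.neg_apply, Finsupp.single_apply]
    split_ifs <;> simp
  | mul x y hx hy =>
    intro u
    rw [hol_mul, ch_mul, Equiv.Perm.mul_apply, hol_aff, hx, hy, Finsupp.add_apply]
    push_cast
    rw [one_zpow]
    ring

open Polynomial in
lemma hol_aff_poly (w : FreeGroup X) : ∀ u : Q, ∃ (E : ℕ) (P : ℝ[X]), ∀ (q : ℝ) (hq : 0 < q),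
    q ^ E * hol p (affL l j0 q hq) w u 0 = P.eval q := by
  classical
  induction w with
  | C1 => intro u; exact ⟨0, 0, fun q hq => by simp [hol_one]⟩
  | of s =>
    intro u
    refine ⟨0, C (if (u, s) = j0 then 1 else 0), fun q hq => ?_⟩
    rw [hol_of, affL_apply, eval_C]
    simp
  | inv_of s _ =>
    intro u
    set j : Q × X := ((p (.of s))⁻¹ * u, s)
    set n : ℤ := l (Finsupp.single j 1)
    refine ⟨n.natAbs, C (-(if j = j0 then 1 else 0)) * Polynomial.X ^ (n.natAbs - n).toNat,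
      fun q hq => ?_⟩
    have h1 : (((n.natAbs - n).toNat : ℕ) : ℤ) = n.natAbs - n := Int.toNat_of_nonneg (by omega)
    have h2 : q ^ (n.natAbs - n).toNat = q ^ n.natAbs * q ^ (-n) := by
      rw [← zpow_natCast, h1, sub_eq_add_neg, zpow_add₀ hq.ne', zpow_natCast]
    rw [hol_of_inv, affL_inv_apply, eval_mul, eval_C, eval_pow, eval_X, h2]
    ring
  | mul x y hx hy =>
    intro u
    obtain ⟨E1, P1, h1⟩ := hx (p y * u)
    obtain ⟨E2, P2, h2⟩ := hy u
    set n : ℤ := l (ch p x (p y * u)) with hn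
    refine ⟨E1 + E2 + n.natAbs, Polynomial.X ^ (E1 + (n.natAbs + n).toNat) * P2 +
      Polynomial.X ^ (E2 + n.natAbs) * P1, fun q hq => ?_⟩
    have h3 : (((n.natAbs + n).toNat : ℕ) : ℤ) = n.natAbs + n := Int.toNat_of_nonneg (by omega)
    have h4 : q ^ (n.natAbs + n).toNat = q ^ n.natAbs * q ^ n := by
      rw [← zpow_natCast, h3, zpow_add₀ hq.ne', zpow_natCast]
    rw [hol_mul, Equiv.Perm.mul_apply, hol_aff, ← hn, eval_add, eval_mul, eval_mul, eval_pow,
      eval_pow, eval_X, ← h1 q hq, ← h2 q hq, pow_add, pow_add, pow_add, pow_add, h4]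
    ring

open Polynomial in
lemma exists_q {x : FreeGroup X} {u : Q} (h : ch p x u j0 ≠ 0) :
    ∃ (q : ℝ) (hq : 0 < q), 3 ≤ q ∧ hol p (affL l j0 q hq) x u 0 ≠ 0 := by
  obtain ⟨E, P, hP⟩ := hol_aff_poly p l j0 x u
  have h1 : P.eval 1 ≠ 0 := by
    rw [← hP 1 one_pos, one_pow, one_mul, hol_aff_one]
    exact_mod_cast h
  have h2 : P ≠ 0 := by
    rintro rfl
    simp at h1
  by_contra hcon
  push Not at hcon
  refine h2 (Polynomial.eq_zero_of_infinite_isRoot P ((Set.Ici_infinite (3 : ℝ)).mono ?_))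
  intro q hq
  have h3 : (3 : ℝ) ≤ q := hq
  have hq0 : 0 < q := by linarith
  have h4 := hP q hq0
  rw [hcon q hq0 h3, mul_zero] at h4
  exact h4.symm

/-- the action of the loops at the base vertex -/
def fib {A : Type w} [Group A] (L : Q × X → A) : p.ker →* A where
  toFun w := hol p L w.1 1
  map_one' := hol_one p L 1
  map_mul' a b := by
    have hb : p b.1 = 1 := b.2
    rw [Subgroup.coe_mul, hol_mul, hb, one_mul]

end Aff

/-! ### non-Conrad pairs -/

/-- the strict form of a bad pair -/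
structure SBad {G : Type u} [Group G] (P : Set G) (f g : G) : Prop where
  pos : f ∈ P
  lt : g * f⁻¹ ∈ P
  bad : ∀ m : ℕ, 0 < m → g * f * (f * g ^ m)⁻¹ ∈ P

section Act

variable {H : Type u} [Group H] (Φ : H →* Equiv.Perm ℝ) (hmono : ∀ w, StrictMono (Φ w))

/-- the stabiliser of a point -/
def stab (r : ℝ) : Subgroup H where
  carrier := {w | Φ w r = r}
  one_mem' := by simp
  mul_mem' := by
    intro a b ha hb
    have ha' : Φ a r = r := ha
    have hb' : Φ b r = r := hb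
    change Φ (a * b) r = r
    rw [map_mul, Equiv.Perm.mul_apply, hb', ha']
  inv_mem' := by
    intro a ha
    have ha' : Φ a r = r := ha
    change Φ a⁻¹ r = r
    rw [map_inv, Equiv.Perm.inv_eq_iff_eq, ha']

include hmono in
lemma act_cone (r : ℝ) : CRO.RCone (stab Φ r) {w | r < Φ w r} where
  mul := by
    intro x hx y hy
    change r < Φ (x * y) r
    rw [map_mul, Equiv.Perm.mul_apply]
    exact lt_trans hx (hmono x hy)
  left := by
    intro c hc x hx
    change r < Φ (c * x) r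
    rw [map_mul, Equiv.Perm.mul_apply]
    have h1 : Φ c r < Φ c (Φ x r) := hmono c hx
    have hc' : Φ c r = r := hc
    rwa [hc'] at h1
  right := by
    intro x hx c hc
    change r < Φ (x * c) r
    have hc' : Φ c r = r := hc
    rw [map_mul, Equiv.Perm.mul_apply, hc']
    exact hx
  disj := by
    intro x hx hx'
    have h1 : r < Φ x r := hx
    have h2 : Φ x r = r := hx'
    rw [h2] at h1
    exact lt_irrefl _ h1
  total := by
    intro x hx
    have hx' : Φ x r ≠ r := hx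
    rcases lt_or_gt_of_ne hx' with h1 | h1
    · right
      change r < Φ x⁻¹ r
      have h2 := hmono x⁻¹ h1
      rw [← Equiv.Perm.mul_apply, ← map_mul, inv_mul_cancel, map_one, Equiv.Perm.one_apply] at h2
      exact h2
    · exact Or.inl h1

lemma sbad_act {f h : H} {t μ c : ℝ} (ht : 0 < t) (hμ : 3 ≤ μ) (hf : ∀ r, Φ f r = r + t)
    (hh : ∀ r, Φ h r = μ * r + c) : ∃ r, SBad {w | r < Φ w r} f h := by
  have hμ1 : μ - 1 ≠ 0 := by
    intro h0
    linarith
  obtain ⟨y, hy⟩ : ∃ y : ℝ, μ * y + c = y := by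
    refine ⟨-c / (μ - 1), ?_⟩
    field_simp
    ring
  have hh' : ∀ r, Φ h r = y + μ * (r - y) := by
    intro r
    rw [hh]
    linarith
  have hpow : ∀ (m : ℕ) (r : ℝ), (Φ h ^ m) r = y + μ ^ m * (r - y) := by
    intro m
    induction m with
    | zero => intro r; simp
    | succ m ih =>
      intro r
      rw [pow_succ', Equiv.Perm.mul_apply, ih, hh', pow_succ']
      ring
  have hfi : ∀ r, Φ f⁻¹ r = r - t := by
    intro r
    rw [map_inv, Equiv.Perm.inv_eq_iff_eq, hf]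
    ring
  refine ⟨y + 2 * t, ?_, ?_, ?_⟩
  · change y + 2 * t < Φ f (y + 2 * t)
    rw [hf]
    linarith
  · change y + 2 * t < Φ (h * f⁻¹) (y + 2 * t)
    rw [map_mul, Equiv.Perm.mul_apply, hfi, hh']
    nlinarith
  · intro m hm
    change y + 2 * t < Φ (h * f * (f * h ^ m)⁻¹) (y + 2 * t)
    rw [map_mul, map_mul, Equiv.Perm.mul_apply, Equiv.Perm.mul_apply]
    obtain ⟨z, hz⟩ : ∃ z, z = Φ (f * h ^ m)⁻¹ (y + 2 * t) := ⟨_, rfl⟩
    have h1 : Φ (f * h ^ m) z = y + 2 * t := by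
      rw [hz, ← Equiv.Perm.mul_apply, ← map_mul, mul_inv_cancel, map_one, Equiv.Perm.one_apply]
    rw [map_mul, map_pow, Equiv.Perm.mul_apply, hpow, hf] at h1
    have h2 : 0 < z - y := by
      have h3 : μ ^ m * (z - y) = t := by linarith
      have h4 : 0 < μ ^ m := pow_pos (by linarith) m
      by_contra h5
      push Not at h5
      have h6 : μ ^ m * (z - y) ≤ 0 := mul_nonpos_of_nonneg_of_nonpos h4.le h5
      linarith
    rw [← hz, hf, hh']
    nlinarith

end Act

/-! ### the crossing lemma -/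

/-- a sign choice -/
def sg {G : Type u} [Group G] (e : Bool) (x : G) : G := if e then x else x⁻¹

lemma sg_mem {G : Type u} [Group G] {N : Subgroup G} (e : Bool) {x : G} (hx : x ∈ N) :
    sg e x ∈ N := by
  cases e
  · exact N.inv_mem hx
  · exact hx

lemma map_sg {G : Type u} {K : Type v} [Group G] [Group K] (φ : G →* K) (e : Bool) (x : G) :
    φ (sg e x) = sg e (φ x) := by
  cases e
  · exact map_inv φ x
  · rfl

lemma exists_form {ι : Type u} {a b : ι →₀ ℤ} {j1 j2 : ι} (h : a j1 * b j2 ≠ b j1 * a j2) :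
    ∃ l : (ι →₀ ℤ) →+ ℤ, l a = 0 ∧ l b ≠ 0 := by
  refine ⟨(a j1) • (Finsupp.applyAddHom j2) - (a j2) • (Finsupp.applyAddHom j1), ?_, ?_⟩
  · simp [mul_comm]
  · simp only [AddMonoidHom.sub_apply, AddMonoidHom.smul_apply, Finsupp.applyAddHom_apply,
      smul_eq_mul]
    intro h0
    apply h
    linarith

lemma not_prop {X : Type u} {Q : Type v} [Group Q] {a : Q × X →₀ ℤ} (ha : a ≠ 0) {γ : Q}
    (hγ : ∀ n : ℕ, n ≠ 0 → γ ^ n ≠ 1) :
    ∃ j1 j2, a j1 ≠ 0 ∧ a j1 * (a.mapDomain (tr γ)) j2 ≠ (a.mapDomain (tr γ)) j1 * a j2 := by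
  classical
  obtain ⟨j1, hj1⟩ := Finsupp.ne_iff.1 ha
  rw [Finsupp.zero_apply] at hj1
  by_contra hcon
  push Not at hcon
  have h1 : ∀ j, a j ≠ 0 → a (tr γ j) ≠ 0 := by
    intro j hj h0
    have h2 := hcon j1 (tr γ j) hj1
    rw [Finsupp.mapDomain_apply (tr_injective γ), h0, mul_zero] at h2
    rcases mul_eq_zero.1 h2 with h3 | h3
    · exact hj1 h3
    · exact hj h3
  have h2 : ∀ n : ℕ, a (j1.1 * γ ^ n, j1.2) ≠ 0 := by
    intro n
    induction n with
    | zero => simpa using hj1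
    | succ n ih =>
      have h3 := h1 _ ih
      rw [tr] at h3
      rwa [pow_succ, ← mul_assoc]
  have h3 : Function.Injective (fun n : ℕ => ((j1.1 * γ ^ n, j1.2) : Q × X)) := by
    have key : ∀ m n : ℕ, m < n → j1.1 * γ ^ m ≠ j1.1 * γ ^ n := by
      intro m n hmn h4
      have h5 : γ ^ m = γ ^ n := mul_left_cancel h4
      obtain ⟨k, rfl⟩ := Nat.exists_eq_add_of_lt hmn
      rw [add_assoc, pow_add] at h5
      exact hγ (k + 1) (by omega) (mul_eq_left.1 h5.symm)
    intro m n h4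
    have h5 : j1.1 * γ ^ m = j1.1 * γ ^ n := congrArg Prod.fst h4
    rcases lt_trichotomy m n with h | h | h
    · exact absurd h5 (key m n h)
    · exact h
    · exact absurd h5.symm (key n m h)
  refine Set.infinite_of_injective_forall_mem h3 (s := {j | a j ≠ 0}) h2 ?_
  exact a.hasFiniteSupport

theorem cross {X : Type u} {Q : Type v} [Group Q] (p : FreeGroup X →* Q) (hRC : CRO.RC p.ker)
    {x g : FreeGroup X} (hx : p x = 1) (hx0 : ch p x 1 ≠ 0) (hg : p g ≠ 1) :
    ∃ (e e' : Bool) (C : Subgroup (FreeGroup X)) (P : Set (FreeGroup X)), CRO.RCone C P ∧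
      SBad P (sg e x) (sg e' (g * x * g⁻¹)) := by
  have hγ : ∀ n : ℕ, n ≠ 0 → ((p g)⁻¹) ^ n ≠ 1 := by
    intro n hn h
    apply hg
    have h1 : g ^ n ∈ p.ker := by
      rw [MonoidHom.mem_ker, map_pow, ← inv_eq_one, ← inv_pow]
      exact h
    exact hRC.isolated hn h1
  obtain ⟨j1, j2, h1, h2⟩ := not_prop hx0 hγ
  rw [← ch_conj p hx] at h2
  obtain ⟨l, hla, hlb⟩ := exists_form h2
  obtain ⟨q, hq, hq3, hT⟩ := exists_q p l j1 h1
  have hx' : p (g * x * g⁻¹) = 1 := by
    rw [map_mul, map_mul, hx, map_inv, mul_one, mul_inv_cancel]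
  have hmono : ∀ w : p.ker, StrictMono (fib p (affL l j1 q hq) w) := by
    intro w r s hrs
    change hol p (affL l j1 q hq) w.1 1 r < hol p (affL l j1 q hq) w.1 1 s
    rw [hol_aff, hol_aff p l j1 q hq w.1 1 s]
    have h3 : 0 < q ^ (l (ch p w.1 1)) := zpow_pos hq _
    have h4 := mul_lt_mul_of_pos_left hrs h3
    linarith
  -- the translation
  obtain ⟨e, t, ht, hf⟩ : ∃ (e : Bool) (t : ℝ), 0 < t ∧
      ∀ r, fib p (affL l j1 q hq) ⟨sg e x, sg_mem e hx⟩ r = r + t := by
    rcases lt_or_gt_of_ne hT with h3 | h3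
    · refine ⟨false, -hol p (affL l j1 q hq) x 1 0, by linarith, fun r => ?_⟩
      change hol p (affL l j1 q hq) x⁻¹ 1 r = _
      rw [hol_inv, hx, inv_one, one_mul, Equiv.Perm.inv_eq_iff_eq, hol_aff, hla, zpow_zero]
      ring
    · refine ⟨true, hol p (affL l j1 q hq) x 1 0, h3, fun r => ?_⟩
      change hol p (affL l j1 q hq) x 1 r = _
      rw [hol_aff, hla, zpow_zero]
      ring
  -- the dilation
  obtain ⟨e', μ, c, hμ, hh⟩ : ∃ (e' : Bool) (μ c : ℝ), 3 ≤ μ ∧
      ∀ r, fib p (affL l j1 q hq) ⟨sg e' (g * x * g⁻¹), sg_mem e' hx'⟩ r = μ * r + c := by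
    rcases lt_or_gt_of_ne hlb with h3 | h3
    · refine ⟨false, q ^ (-(l (ch p (g * x * g⁻¹) 1))),
        -(q ^ (-(l (ch p (g * x * g⁻¹) 1))) * hol p (affL l j1 q hq) (g * x * g⁻¹) 1 0), ?_,
        fun r => ?_⟩
      · have h4 : (1 : ℤ) ≤ -(l (ch p (g * x * g⁻¹) 1)) := by omega
        calc (3 : ℝ) ≤ q ^ (1 : ℤ) := by rw [zpow_one]; exact hq3
          _ ≤ _ := zpow_le_zpow_right₀ (by linarith) h4
      · change hol p (affL l j1 q hq) (g * x * g⁻¹)⁻¹ 1 r = _
        rw [hol_inv, hx', inv_one, one_mul, Equiv.Perm.inv_eq_iff_eq, hol_aff, zpow_neg]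
        have h5 : q ^ (l (ch p (g * x * g⁻¹) 1)) ≠ 0 := (zpow_pos hq _).ne'
        field_simp
        ring
    · refine ⟨true, q ^ (l (ch p (g * x * g⁻¹) 1)), hol p (affL l j1 q hq) (g * x * g⁻¹) 1 0,
        ?_, fun r => ?_⟩
      · have h4 : (1 : ℤ) ≤ l (ch p (g * x * g⁻¹) 1) := by omega
        calc (3 : ℝ) ≤ q ^ (1 : ℤ) := by rw [zpow_one]; exact hq3
          _ ≤ _ := zpow_le_zpow_right₀ (by linarith) h4
      · change hol p (affL l j1 q hq) (g * x * g⁻¹) 1 r = _
        rw [hol_aff]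
  obtain ⟨r, hbad⟩ := sbad_act (fib p (affL l j1 q hq)) ht hμ hf hh
  obtain ⟨PN, hPN⟩ := hRC
  have hcone := hPN.trans (act_cone (fib p (affL l j1 q hq)) hmono r)
  refine ⟨e, e', _, _, hcone, ?_, ?_, ?_⟩
  · exact Or.inr ⟨_, hbad.pos, rfl⟩
  · exact Or.inr ⟨_, hbad.lt, rfl⟩
  · intro m hm
    exact Or.inr ⟨_, hbad.bad m hm, rfl⟩

/-- the eight candidate pairs -/
def cand {G : Type u} [Group G] (u v : G) (i : Bool × Bool × Bool) : G × G :=
  (sg i.1 ⁅u, v⁆,
    sg i.2.1 ((if i.2.2 then u else v) * ⁅u, v⁆ * (if i.2.2 then u else v)⁻¹))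

lemma map_cand {G : Type u} {K : Type v} [Group G] [Group K] (φ : G →* K) (u v : G)
    (i : Bool × Bool × Bool) :
    cand (φ u) (φ v) i = (φ (cand u v i).1, φ (cand u v i).2) := by
  obtain ⟨a, b, c⟩ := i
  simp only [cand, map_sg, map_commutatorElement]
  cases c <;> simp [map_commutatorElement]

/-- `Cr u v`: some relative order violates the Conrad condition for one of the eight pairs -/
def Cr {G : Type u} [Group G] (u v : G) : Prop :=
  ∃ (i : Bool × Bool × Bool) (C : Subgroup G) (P : Set G), CRO.RCone C P ∧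
    SBad P (cand u v i).1 (cand u v i).2

theorem Cr_free {X : Type u} {u v : FreeGroup X} (h : ⁅u, v⁆ ≠ 1) : Cr u v := by
  obtain ⟨n, h1, h2⟩ := exists_level h
  have hker : (QuotientGroup.mk' (tow X n).1).ker = (tow X n).1 := QuotientGroup.ker_mk' _
  have hRC : CRO.RC (QuotientGroup.mk' (tow X n).1).ker := by
    rw [hker]; exact (tow X n).2.2
  have h3 : QuotientGroup.mk' (tow X n).1 ⁅u, v⁆ = 1 := (QuotientGroup.eq_one_iff _).2 h1
  have h4 : ch (QuotientGroup.mk' (tow X n).1) ⁅u, v⁆ 1 ≠ 0 := fun h0 => h2 ⟨h1, h0⟩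
  by_cases hu : u ∈ (tow X n).1
  · have hv : v ∉ (tow X n).1 := fun hv => h2 (comm_mem_up hu hv)
    obtain ⟨e, e', C, P, h5, h6⟩ := cross (QuotientGroup.mk' (tow X n).1) hRC h3 h4 (g := v)
      (fun h0 => hv ((QuotientGroup.eq_one_iff _).1 h0))
    exact ⟨(e, e', false), C, P, h5, h6⟩
  · obtain ⟨e, e', C, P, h5, h6⟩ := cross (QuotientGroup.mk' (tow X n).1) hRC h3 h4 (g := u)
      (fun h0 => hu ((QuotientGroup.eq_one_iff _).1 h0))
    exact ⟨(e, e', true), C, P, h5, h6⟩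

end LFO
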