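import Pool.Agent.LFO.Cross
import Pool.Agent.CRO.Class

/-!
Limits of relative cones along an ultrafilter of subgroups.
-/

open scoped commutatorElement

namespace LFO

universe u v w

lemma SBad.image {G : Type u} [Group G] {S : Subgroup G} {P : Set S} {f g : S}
    (h : SBad P f g) : SBad (S.subtype '' P) (f : G) g where
  pos := ⟨_, h.pos, rfl⟩
  lt := ⟨_, h.lt, rfl⟩
  bad := fun m hm => ⟨_, h.bad m hm, rfl⟩

lemma SBad.comap {G : Type u} {K : Type v} [Group G] [Group K] (φ : G →* K) {P : Set K} {f g : G}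
    (h : SBad P (φ f) (φ g)) : SBad (φ ⁻¹' P) f g where
  pos := h.pos
  lt := by
    change φ (g * f⁻¹) ∈ P
    rw [map_mul, map_inv]
    exact h.lt
  bad := by
    intro m hm
    change φ (g * f * (f * g ^ m)⁻¹) ∈ P
    rw [map_mul, map_inv, map_mul, map_mul, map_pow]
    exact h.bad m hm

lemma SBad.mono {G : Type u} [Group G] {P P' : Set G} (hP : P ⊆ P') {f g : G}
    (h : SBad P f g) : SBad P' f g where
  pos := hP h.pos
  lt := hP h.lt
  bad := fun m hm => hP (h.bad m hm)

/-- `Cr` pulls back along homomorphisms -/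
lemma Cr.comap {G : Type u} {K : Type v} [Group G] [Group K] (φ : G →* K) {u v : G}
    (h : Cr (φ u) (φ v)) : Cr u v := by
  obtain ⟨i, C, P, h1, h2⟩ := h
  rw [map_cand] at h2
  exact ⟨i, C.comap φ, φ ⁻¹' P, h1.comap φ, h2.comap φ⟩

/-- a violated Conrad condition contradicts the all-Conrad property -/
lemma Cr.false {G : Type u} [Group G] (hA : CRO.AC G) (hR : CRO.RC (⊥ : Subgroup G)) {u v : G}
    (h : Cr u v) : False := by
  obtain ⟨i, C, P, h1, h2⟩ := h
  obtain ⟨Q, hQ⟩ := hR
  have h3 := h1.combine' hQ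
  have h4 : SBad (P ∪ {x | x ∈ C ∧ x ∈ Q}) (cand u v i).1 (cand u v i).2 :=
    h2.mono Set.subset_union_left
  exact hA _ h3 _ _ (CRO.Bad.mk' h3 h4.pos h4.lt h4.bad)

section Lim

variable {G : Type u} [Group G] {ι : Type v} (U : Ultrafilter ι)

/-- a cone that only concerns the elements of the subgroup `S` -/
structure ROn (S C : Subgroup G) (P : Set G) : Prop where
  le : C ≤ S
  mul : ∀ x ∈ P, ∀ y ∈ P, x * y ∈ P
  left : ∀ c ∈ C, ∀ x ∈ P, c * x ∈ P
  right : ∀ x ∈ P, ∀ c ∈ C, x * c ∈ P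
  disj : ∀ x ∈ P, x ∉ C
  total : ∀ x ∈ S, x ∉ C → x ∈ P ∨ x⁻¹ ∈ P

lemma ROn.of {S : Subgroup G} {C : Subgroup S} {P : Set S} (h : CRO.RCone C P) :
    ROn S (C.map S.subtype) (S.subtype '' P) where
  le := by
    rintro _ ⟨x, _, rfl⟩
    exact x.2
  mul := by
    rintro _ ⟨x, hx, rfl⟩ _ ⟨y, hy, rfl⟩
    exact ⟨x * y, h.mul _ hx _ hy, rfl⟩
  left := by
    rintro _ ⟨x, hx, rfl⟩ _ ⟨y, hy, rfl⟩
    exact ⟨x * y, h.left _ hx _ hy, rfl⟩
  right := by
    rintro _ ⟨x, hx, rfl⟩ _ ⟨y, hy, rfl⟩
    exact ⟨x * y, h.right _ hx _ hy, rfl⟩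
  disj := by
    rintro _ ⟨x, hx, rfl⟩ ⟨y, hy, hxy⟩
    have : y = x := S.subtype_injective hxy
    exact h.disj _ hx (this ▸ hy)
  total := by
    intro x hx hxC
    have hx' : (⟨x, hx⟩ : S) ∉ C := fun h => hxC ⟨⟨x, hx⟩, h, rfl⟩
    rcases h.total _ hx' with h1 | h1
    · exact Or.inl ⟨_, h1, rfl⟩
    · exact Or.inr ⟨_, h1, rfl⟩

/-- the limit of subgroups -/
def limS (C : ι → Subgroup G) : Subgroup G where
  carrier := {x | ∀ᶠ i in (U : Filter ι), x ∈ C i}
  one_mem' := Filter.Eventually.of_forall fun i => (C i).one_mem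
  mul_mem' := by
    intro a b ha hb
    change ∀ᶠ i in (U : Filter ι), a * b ∈ C i
    filter_upwards [ha, hb] with i h1 h2
    exact (C i).mul_mem h1 h2
  inv_mem' := by
    intro a ha
    change ∀ᶠ i in (U : Filter ι), a⁻¹ ∈ C i
    filter_upwards [ha] with i h1
    exact (C i).inv_mem h1

lemma mem_limS {C : ι → Subgroup G} {x : G} :
    x ∈ limS U C ↔ ∀ᶠ i in (U : Filter ι), x ∈ C i := Iff.rfl

lemma lim_cone {S C : ι → Subgroup G} {P : ι → Set G} (hS : ∀ x, ∀ᶠ i in (U : Filter ι), x ∈ S i)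
    (h : ∀ᶠ i in (U : Filter ι), ROn (S i) (C i) (P i)) :
    CRO.RCone (limS U C) {x | ∀ᶠ i in (U : Filter ι), x ∈ P i} where
  mul := by
    intro x hx y hy
    change ∀ᶠ i in (U : Filter ι), x * y ∈ P i
    filter_upwards [hx, hy, h] with i h1 h2 h3
    exact h3.mul _ h1 _ h2
  left := by
    intro x hx y hy
    change ∀ᶠ i in (U : Filter ι), x * y ∈ P i
    filter_upwards [(mem_limS U).1 hx, hy, h] with i h1 h2 h3
    exact h3.left _ h1 _ h2
  right := by
    intro x hx y hy
    change ∀ᶠ i in (U : Filter ι), x * y ∈ P i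
    filter_upwards [hx, (mem_limS U).1 hy, h] with i h1 h2 h3
    exact h3.right _ h1 _ h2
  disj := by
    intro x hx hxC
    have hx' : ∀ᶠ i in (U : Filter ι), x ∈ P i := hx
    obtain ⟨i, h1, h2, h3⟩ := (hx'.and (((mem_limS U).1 hxC).and h)).exists
    exact h3.disj _ h1 h2
  total := by
    intro x hx
    have h1 : ∀ᶠ i in (U : Filter ι), x ∉ C i := by
      rw [mem_limS] at hx
      exact Ultrafilter.eventually_not.2 hx
    have h2 : ∀ᶠ i in (U : Filter ι), (x ∈ P i ∨ x⁻¹ ∈ P i) := by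
      filter_upwards [h1, hS x, h] with i h3 h4 h5
      exact h5.total x h4 h3
    exact Ultrafilter.eventually_or.1 h2

/-- relatively convex subgroups pass to the limit -/
lemma RC_lim {S : ι → Subgroup G} (C : ∀ i, Subgroup (S i))
    (hS : ∀ x, ∀ᶠ i in (U : Filter ι), x ∈ S i) (h : ∀ i, CRO.RC (C i)) :
    CRO.RC (limS U fun i => (C i).map (S i).subtype) := by
  choose P hP using h
  exact ⟨_, lim_cone U hS (Filter.Eventually.of_forall fun i => ROn.of (hP i))⟩

lemma cand_coe {S : Subgroup G} (u v : S) (i : Bool × Bool × Bool) :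
    (((cand u v i).1 : G), ((cand u v i).2 : G)) = cand (u : G) (v : G) i :=
  (map_cand S.subtype u v i).symm

/-- `Cr` passes to the limit -/
lemma Cr_lim {S : ι → Subgroup G} (hS : ∀ x, ∀ᶠ i in (U : Filter ι), x ∈ S i) {u v : G}
    (h : ∀ᶠ i in (U : Filter ι), ∃ (hu : u ∈ S i) (hv : v ∈ S i),
      Cr (⟨u, hu⟩ : S i) (⟨v, hv⟩ : S i)) : Cr u v := by
  have h1 : ∀ i, ∃ (k : Bool × Bool × Bool) (C : Subgroup G) (P : Set G),
      (∃ (hu : u ∈ S i) (hv : v ∈ S i), Cr (⟨u, hu⟩ : S i) (⟨v, hv⟩ : S i)) →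
        ROn (S i) C P ∧ SBad P (cand u v k).1 (cand u v k).2 := by
    intro i
    by_cases h2 : ∃ (hu : u ∈ S i) (hv : v ∈ S i), Cr (⟨u, hu⟩ : S i) (⟨v, hv⟩ : S i)
    · obtain ⟨hu, hv, k, C, P, h3, h4⟩ := h2
      refine ⟨k, C.map (S i).subtype, (S i).subtype '' P, fun _ => ⟨ROn.of h3, ?_⟩⟩
      have h5 := h4.image
      have h6 := cand_coe (⟨u, hu⟩ : S i) (⟨v, hv⟩ : S i) k
      rw [← h6]
      exact h5
    · exact ⟨(true, true, true), ⊥, ∅, fun h3 => absurd h3 h2⟩
  choose k C P hk using h1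
  obtain ⟨k0, hk0⟩ : ∃ k0, ∀ᶠ i in (U : Filter ι), k i = k0 := by
    have h2 : ∀ᶠ i in (U : Filter ι), ∃ k0, k i = k0 := Filter.Eventually.of_forall fun i => ⟨_, rfl⟩
    by_contra hcon
    push Not at hcon
    have h3 : ∀ k0, ∀ᶠ i in (U : Filter ι), k i ≠ k0 := hcon
    have h4 : ∀ᶠ i in (U : Filter ι), ∀ k0, k i ≠ k0 := Filter.eventually_all.2 h3
    obtain ⟨i, h5⟩ := h4.exists
    exact h5 (k i) rfl
  refine ⟨k0, _, _, lim_cone U (S := S) (C := C) (P := P) hS ?_, ?_, ?_, ?_⟩
  · filter_upwards [h] with i h2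
    exact (hk i h2).1
  · change ∀ᶠ i in (U : Filter ι), _ ∈ P i
    filter_upwards [h, hk0] with i h2 h3
    rw [← h3]
    exact (hk i h2).2.pos
  · change ∀ᶠ i in (U : Filter ι), _ ∈ P i
    filter_upwards [h, hk0] with i h2 h3
    rw [← h3]
    exact (hk i h2).2.lt
  · intro m hm
    change ∀ᶠ i in (U : Filter ι), _ ∈ P i
    filter_upwards [h, hk0] with i h2 h3
    rw [← h3]
    exact (hk i h2).2.bad m hm

end Lim

/-- an ultrafilter on the finite subsets that refines inclusion -/
noncomputable def fu (G : Type u) : Ultrafilter (Finset G) :=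
  Ultrafilter.of Filter.atTop

lemma fu_ev {G : Type u} {p : Finset G → Prop} (X0 : Finset G) (h : ∀ X, X0 ⊆ X → p X) :
    ∀ᶠ X in (fu G : Filter (Finset G)), p X := by
  have hU : (fu G : Filter (Finset G)) ≤ Filter.atTop := Ultrafilter.of_le _
  exact hU ((Filter.eventually_ge_atTop X0).mono fun X hX => h X hX)

lemma fu_mem {G : Type u} [Group G] {S : Finset G → Subgroup G} (hS : ∀ X, ∀ x ∈ X, x ∈ S X)
    (x : G) : ∀ᶠ X in (fu G : Filter (Finset G)), x ∈ S X :=
  fu_ev {x} fun X hX => hS X x (hX (Finset.mem_singleton_self x))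

/-- elements of the derived series are words in finitely many elements -/
lemma derived_fin {G : Type u} [Group G] (d : ℕ) : ∀ x ∈ derivedSeries G d,
    ∃ X0 : Finset G, ∀ S : Subgroup G, (∀ y ∈ X0, y ∈ S) →
      x ∈ (derivedSeries S d).map S.subtype := by
  classical
  induction d with
  | zero =>
    intro x _
    exact ⟨{x}, fun S hS => ⟨⟨x, hS x (Finset.mem_singleton_self x)⟩, Subgroup.mem_top _, rfl⟩⟩
  | succ d ih =>
    intro x hx
    rw [derivedSeries_succ, Subgroup.commutator_def] at hx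
    induction hx using Subgroup.closure_induction with
    | mem x hx =>
      obtain ⟨a, ha, b, hb, rfl⟩ := hx
      obtain ⟨X1, h1⟩ := ih a ha
      obtain ⟨X2, h2⟩ := ih b hb
      refine ⟨X1 ∪ X2, fun S hS => ?_⟩
      obtain ⟨a', ha', rfl⟩ := h1 S fun y hy => hS y (Finset.mem_union_left _ hy)
      obtain ⟨b', hb', rfl⟩ := h2 S fun y hy => hS y (Finset.mem_union_right _ hy)
      exact ⟨⁅a', b'⁆, Subgroup.commutator_mem_commutator ha' hb', map_commutatorElement _ _ _⟩
    | one => exact ⟨∅, fun S _ => Subgroup.one_mem _⟩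
    | mul a b _ _ ha hb =>
      obtain ⟨X1, h1⟩ := ha
      obtain ⟨X2, h2⟩ := hb
      exact ⟨X1 ∪ X2, fun S hS => Subgroup.mul_mem _
        (h1 S fun y hy => hS y (Finset.mem_union_left _ hy))
        (h2 S fun y hy => hS y (Finset.mem_union_right _ hy))⟩
    | inv a _ ha =>
      obtain ⟨X1, h1⟩ := ha
      exact ⟨X1, fun S hS => Subgroup.inv_mem _ (h1 S hS)⟩

/-! ### the class `Nice` -/

/-- The smallest class of groups that contains the free groups and the right-orderable soluble
groups of derived length at most `d` and is closed under residual and local closure. -/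
inductive Nice (d : ℕ) : (H : Type u) → [Group H] → Prop
  | free (X : Type u) : Nice d (FreeGroup X)
  | soluble (H : Type u) [Group H] (hR : CRO.RC (⊥ : Subgroup H)) (hd : derivedSeries H d = ⊥) :
      Nice d H
  | residual (H : Type u) [Group H] (K : {x : H // x ≠ 1} → Type u) [∀ x, Group (K x)]
      (f : ∀ x, H →* K x) (hf : ∀ x, f x x.1 ≠ 1) (h : ∀ x, Nice d (K x)) : Nice d H
  | loc (H : Type u) [Group H] (S : Finset H → Subgroup H) (hS : ∀ X, ∀ x ∈ X, x ∈ S X)
      (h : ∀ X, Nice d (S X)) : Nice d H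

theorem Nice.prop {d : ℕ} {H : Type u} [Group H] (h : Nice d H) :
    CRO.RC (⊥ : Subgroup H) ∧
      ∀ u ∈ derivedSeries H d, ∀ v ∈ derivedSeries H d, ⁅u, v⁆ ≠ 1 → Cr u v := by
  induction h with
  | free X => exact ⟨RC_bot_free, fun u _ v _ h => Cr_free h⟩
  | soluble H hR hd =>
    refine ⟨hR, fun u hu v _ h => ?_⟩
    rw [hd, Subgroup.mem_bot] at hu
    exact absurd (by rw [hu, commutatorElement_one_left]) h
  | residual H K f hf _ ih =>
    constructor
    · have h1 := CRO.RC.iInf (fun x => (f x).ker) (fun x => by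
        have h2 := (ih x).1.comap (f x)
        rwa [MonoidHom.comap_bot] at h2)
      have h2 : (⨅ x, (f x).ker) = ⊥ := by
        rw [eq_bot_iff]
        intro x hx
        by_contra hc
        rw [Subgroup.mem_iInf] at hx
        exact hf ⟨x, fun h => hc (Subgroup.mem_bot.2 h)⟩ (hx ⟨x, fun h => hc (Subgroup.mem_bot.2 h)⟩)
      rw [h2] at h1
      exact h1
    · intro u hu v hv h
      refine Cr.comap (f ⟨_, h⟩) ?_
      refine (ih ⟨_, h⟩).2 _ ?_ _ ?_ ?_
      · exact map_derivedSeries_le_derivedSeries (f ⟨_, h⟩) d ⟨u, hu, rfl⟩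
      · exact map_derivedSeries_le_derivedSeries (f ⟨_, h⟩) d ⟨v, hv, rfl⟩
      · rw [← map_commutatorElement]
        exact hf ⟨_, h⟩
  | loc H S hS _ ih =>
    constructor
    · have h1 := RC_lim (fu H) (S := S) (fun X => (⊥ : Subgroup (S X))) (fu_mem hS)
        (fun X => (ih X).1)
      have h2 : (limS (fu H) fun X => (⊥ : Subgroup (S X)).map (S X).subtype) = ⊥ := by
        rw [eq_bot_iff]
        intro x hx
        rw [mem_limS] at hx
        obtain ⟨X, h3⟩ := hx.exists
        rw [Subgroup.map_bot] at h3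
        exact h3
      rw [h2] at h1
      exact h1
    · intro u hu v hv h
      obtain ⟨X1, h1⟩ := derived_fin d u hu
      obtain ⟨X2, h2⟩ := derived_fin d v hv
      classical
      refine Cr_lim (fu H) (fu_mem hS) (fu_ev (X1 ∪ X2) fun X hX => ?_)
      obtain ⟨u', hu', rfl⟩ := h1 (S X) fun y hy => hS X y (hX (Finset.mem_union_left _ hy))
      obtain ⟨v', hv', rfl⟩ := h2 (S X) fun y hy => hS X y (hX (Finset.mem_union_right _ hy))
      refine ⟨u'.2, v'.2, (ih X).2 u' hu' v' hv' fun h3 => h ?_⟩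
      rw [← map_commutatorElement, h3, map_one]

/-! ### the class `Tame` -/

/-- `Tame d 0` is the class `EA`; a group is in `Tame d (r + 1)` if every finite subset lies in a
subgroup that has a homomorphism to a group of `Nice d` whose kernel is in `Tame d r`. -/
def Tame (d : ℕ) : ℕ → (H : Type u) → [Group H] → Prop
  | 0, H, _ => CRO.EA H
  | r + 1, H, _ => ∀ X : Finset H, ∃ (S : Subgroup H) (L : Type u) (_ : Group L) (q : S →* L),
      (∀ x ∈ X, x ∈ S) ∧ Nice d L ∧ Tame d r q.ker

lemma Tame.of_injective {d : ℕ} : ∀ (r : ℕ) (H K : Type u) [Group H] [Group K] (f : K →* H),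
    Function.Injective f → Tame d r H → Tame d r K := by
  classical
  intro r
  induction r with
  | zero => intro H K _ _ f hf h; exact CRO.EA.subgroup H K f hf h
  | succ r ih =>
    intro H K _ _ f hf h X
    obtain ⟨S, L, _, q, h1, h2, h3⟩ := h (X.image f)
    let g : S.comap f →* S := (f.comp (S.comap f).subtype).codRestrict S fun x => x.2
    refine ⟨S.comap f, L, inferInstance, q.comp g, fun x hx => h1 _ (Finset.mem_image_of_mem f hx),
      h2, ?_⟩
    let j : (q.comp g).ker →* q.ker := (g.comp (q.comp g).ker.subtype).codRestrict q.ker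
      fun x => x.2
    refine ih q.ker (q.comp g).ker j ?_ h3
    intro a b hab
    have h4 : f a.1.1 = f b.1.1 := congrArg (fun z : q.ker => (z.1 : H)) hab
    exact Subtype.ext (Subtype.ext (hf h4))

lemma Tame.loc {d : ℕ} (r : ℕ) (H : Type u) [Group H]
    (h : ∀ X : Finset H, ∃ S : Subgroup H, (∀ x ∈ X, x ∈ S) ∧ Tame d r S) : Tame d r H := by
  classical
  cases r with
  | zero =>
    refine CRO.EA.union H (Finset H) (fun X => Subgroup.closure (X : Set H)) ?_ ?_ ?_
    · intro X Y
      exact ⟨X ∪ Y, Subgroup.closure_mono (by simp), Subgroup.closure_mono (by simp)⟩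
    · intro x
      exact ⟨{x}, Subgroup.subset_closure (by simp)⟩
    · intro X
      obtain ⟨S, hS, h1⟩ := h X
      have h2 : Subgroup.closure (X : Set H) ≤ S := (Subgroup.closure_le S).2 hS
      exact Tame.of_injective (d := 0) 0 S _ (Subgroup.inclusion h2)
        (Subgroup.inclusion_injective h2) h1
  | succ r =>
    intro X
    obtain ⟨S, hS, h1⟩ := h X
    have h1' := h1 (X.attach.image fun x => (⟨x.1, hS x.1 x.2⟩ : S))
    obtain ⟨S1, L, iL, q, h2, h3, h4⟩ := h1'
    let e : S1 ≃* S1.map S.subtype := S1.equivMapOfInjective S.subtype S.subtype_injective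
    refine ⟨S1.map S.subtype, L, inferInstance, q.comp e.symm.toMonoidHom, ?_, h3, ?_⟩
    · intro x hx
      refine ⟨⟨x, hS x hx⟩, h2 _ ?_, rfl⟩
      rw [Finset.mem_image]
      exact ⟨⟨x, hx⟩, Finset.mem_attach _ _, rfl⟩
    · let j : (q.comp e.symm.toMonoidHom).ker →* q.ker :=
        (e.symm.toMonoidHom.comp (q.comp e.symm.toMonoidHom).ker.subtype).codRestrict q.ker
          fun x => x.2
      refine Tame.of_injective r q.ker _ j ?_ h4
      intro a b hab
      have h5 : e.symm a.1 = e.symm b.1 := congrArg Subtype.val hab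
      exact Subtype.ext (e.symm.injective h5)

lemma EA_of_derived : ∀ (n : ℕ) (H : Type u) [Group H], derivedSeries H n = ⊥ → CRO.EA H := by
  intro n
  induction n with
  | zero =>
    intro H _ h
    refine CRO.EA.abelian H fun a b => ?_
    have h1 : ∀ x : H, x = 1 := by
      intro x
      have h2 : x ∈ derivedSeries H 0 := Subgroup.mem_top x
      rw [h] at h2
      exact Subgroup.mem_bot.1 h2
    rw [h1 a, h1 b]
  | succ n ih =>
    intro H _ h
    refine CRO.EA.extension H (derivedSeries H n) ?_ ?_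
    · refine CRO.EA.abelian _ ?_
      rintro ⟨a, ha⟩ ⟨b, hb⟩
      apply Subtype.ext
      have h1 : ⁅a, b⁆ ∈ derivedSeries H (n + 1) := Subgroup.commutator_mem_commutator ha hb
      rw [h, Subgroup.mem_bot, commutatorElement_eq_one_iff_commute] at h1
      exact h1
    · refine ih _ ?_
      rw [← map_derivedSeries_eq (QuotientGroup.mk'_surjective _), eq_bot_iff,
        Subgroup.map_le_iff_le_comap]
      intro x hx
      rw [Subgroup.mem_comap, Subgroup.mem_bot, ← MonoidHom.mem_ker, QuotientGroup.ker_mk']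
      exact hx

/-- all-Conrad groups have only soluble images in the class `Nice` -/
theorem image_soluble {d : ℕ} {G L : Type u} [Group G] [Group L]
    (hR : CRO.RC (⊥ : Subgroup G)) (hA : CRO.AC G) (f : G →* L) (hf : Function.Surjective f)
    (hL : Nice d L) : derivedSeries L (d + 1) = ⊥ := by
  rw [eq_bot_iff, derivedSeries_succ, Subgroup.commutator_le]
  intro u hu v hv
  rw [Subgroup.mem_bot]
  by_contra hc
  obtain ⟨u, rfl⟩ := hf u
  obtain ⟨v, rfl⟩ := hf v
  exact ((hL.prop.2 _ hu _ hv hc).comap f).false hA hR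

theorem EA_of_Tame {d : ℕ} : ∀ (r : ℕ) (G : Type u) [Group G], CRO.RC (⊥ : Subgroup G) →
    CRO.AC G → Tame d r G → CRO.EA G := by
  classical
  intro r
  induction r with
  | zero => intro G _ _ _ h; exact h
  | succ r ih =>
    intro G _ hB hA h
    choose S L hL q hS hN hT using h
    let N : Subgroup G := limS (fu G) fun X => (q X).ker.map (S X).subtype
    have hRC : CRO.RC N := RC_lim (fu G) (fun X => (q X).ker) (fu_mem hS) (fun X => by
      have h2 := (hN X).prop.1.comap (q X)
      rwa [MonoidHom.comap_bot] at h2)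
    have hnorm : N.Normal := by
      refine ⟨fun x hx g => ?_⟩
      have hx' : ∀ᶠ X in (fu G : Filter (Finset G)), x ∈ (q X).ker.map (S X).subtype := hx
      change ∀ᶠ X in (fu G : Filter (Finset G)), _ ∈ (q X).ker.map (S X).subtype
      filter_upwards [hx', fu_mem hS g] with X h1 h2
      obtain ⟨y, hy, rfl⟩ := h1
      refine ⟨(⟨g, h2⟩ : S X) * y * (⟨g, h2⟩ : S X)⁻¹, ?_, rfl⟩
      exact (MonoidHom.normal_ker (q X)).conj_mem y hy _
    have hder : derivedSeries G (d + 1) ≤ N := by
      rw [derivedSeries_succ, Subgroup.commutator_le]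
      intro u hu v hv
      by_contra hc
      have hc' : ∀ᶠ X in (fu G : Filter (Finset G)), ⁅u, v⁆ ∉ (q X).ker.map (S X).subtype :=
        Ultrafilter.eventually_not.2 hc
      obtain ⟨X1, h1⟩ := derived_fin d u hu
      obtain ⟨X2, h2⟩ := derived_fin d v hv
      have h3 : ∀ᶠ X in (fu G : Filter (Finset G)), X1 ∪ X2 ⊆ X := fu_ev (X1 ∪ X2) fun X hX => hX
      refine (Cr_lim (fu G) (fu_mem hS) (u := u) (v := v) ?_).false hA hB
      filter_upwards [hc', h3] with X h4 h5
      obtain ⟨u', hu', rfl⟩ := h1 (S X) fun y hy => hS X y (h5 (Finset.mem_union_left _ hy))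
      obtain ⟨v', hv', rfl⟩ := h2 (S X) fun y hy => hS X y (h5 (Finset.mem_union_right _ hy))
      refine ⟨u'.2, v'.2, Cr.comap (q X) ((hN X).prop.2 _ ?_ _ ?_ fun h6 => h4 ?_)⟩
      · exact map_derivedSeries_le_derivedSeries (q X) d ⟨u', hu', rfl⟩
      · exact map_derivedSeries_le_derivedSeries (q X) d ⟨v', hv', rfl⟩
      · rw [← map_commutatorElement] at h6
        exact ⟨⁅u', v'⁆, h6, map_commutatorElement _ _ _⟩
    have hTN : Tame d r N := by
      refine Tame.loc r N fun Y => ?_
      have h1 : ∀ᶠ X in (fu G : Filter (Finset G)), ∀ y ∈ Y,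
          (y : G) ∈ (q X).ker.map (S X).subtype := by
        rw [Filter.eventually_all_finset]
        exact fun y _ => y.2
      obtain ⟨X, hX⟩ := h1.exists
      refine ⟨((q X).ker.map (S X).subtype).subgroupOf N, fun y hy => hX y hy, ?_⟩
      let e : (q X).ker ≃* (q X).ker.map (S X).subtype :=
        (q X).ker.equivMapOfInjective (S X).subtype (S X).subtype_injective
      let j : ((q X).ker.map (S X).subtype).subgroupOf N →* (q X).ker.map (S X).subtype :=
        (N.subtype.comp (((q X).ker.map (S X).subtype).subgroupOf N).subtype).codRestrict _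
          fun x => x.2
      refine Tame.of_injective r (q X).ker _ (e.symm.toMonoidHom.comp j) ?_ (hT X)
      intro a b hab
      have h2 : j a = j b := e.symm.injective hab
      have h3 : (a.1.1 : G) = b.1.1 :=
        congrArg (fun z : ((q X).ker.map (S X).subtype : Subgroup G) => (z : G)) h2
      exact Subtype.ext (Subtype.ext h3)
    have hBN : CRO.RC (⊥ : Subgroup N) := by
      have h1 := hB.comap N.subtype
      have h2 : (⊥ : Subgroup G).comap N.subtype = ⊥ := by
        rw [MonoidHom.comap_bot, Subgroup.ker_subtype]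
      rwa [h2] at h1
    have hEA : CRO.EA N := ih N hBN (hA.subgroup hRC) hTN
    refine CRO.EA.extension G N hEA (EA_of_derived (d + 1) _ ?_)
    rw [← map_derivedSeries_eq (QuotientGroup.mk'_surjective _), eq_bot_iff,
      Subgroup.map_le_iff_le_comap]
    intro x hx
    rw [Subgroup.mem_comap, Subgroup.mem_bot, ← MonoidHom.mem_ker, QuotientGroup.ker_mk']
    exact hder hx

end LFO
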