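import Pool.Agent.LFO.Walk
import Pool.Agent.CRO.NilPow

/-!
The tower of relatively convex normal subgroups of a free group.
-/

open scoped commutatorElement

namespace LFO

universe u v w

section Short

variable {X : Type u} {Q : Type v} [Group Q] (p : FreeGroup X →* Q)

lemma mk_cons_true (s : X) (L : List (X × Bool)) :
    FreeGroup.mk ((s, true) :: L) = .of s * .mk L := by
  rw [FreeGroup.of, FreeGroup.mul_mk]; rfl

lemma mk_cons_false (s : X) (L : List (X × Bool)) :
    FreeGroup.mk ((s, false) :: L) = (.of s)⁻¹ * .mk L := by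
  rw [FreeGroup.of, FreeGroup.inv_mk, FreeGroup.mul_mk]; rfl

lemma ch_neg : ∀ (L : List (X × Bool)) (j : Q × X), ch p (.mk L) 1 j < 0 →
    ∃ L1 L2, L = L1 ++ (j.2, false) :: L2 ∧ j.1 = (p (.of j.2))⁻¹ * p (.mk L2) := by
  classical
  intro L
  induction L with
  | nil =>
    intro j h
    exfalso
    have h1 : (FreeGroup.mk [] : FreeGroup X) = 1 := rfl
    rw [h1, ch_one] at h
    simp at h
  | cons a L ih =>
    intro j h
    obtain ⟨s, b⟩ := a
    cases b with
    | true =>
      rw [mk_cons_true, ch_mul, ch_of, Finsupp.add_apply, mul_one] at h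
      have h1 : 0 ≤ (Finsupp.single (p (.mk L), s) (1 : ℤ)) j := by
        rw [Finsupp.single_apply]; split_ifs <;> norm_num
      obtain ⟨L1, L2, h2, h3⟩ := ih j (by omega)
      exact ⟨(s, true) :: L1, L2, by rw [h2]; rfl, h3⟩
    | false =>
      rw [mk_cons_false, ch_mul, ch_of_inv, Finsupp.add_apply, mul_one, Finsupp.neg_apply,
        Finsupp.single_apply] at h
      split_ifs at h with h1
      · refine ⟨[], L, ?_, ?_⟩
        · rw [← h1]; rfl
        · rw [← h1]
      · obtain ⟨L1, L2, h2, h3⟩ := ih j (by omega)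
        exact ⟨(s, false) :: L1, L2, by rw [h2]; rfl, h3⟩

lemma ch_pos : ∀ (L : List (X × Bool)) (j : Q × X), 0 < ch p (.mk L) 1 j →
    ∃ L1 L2, L = L1 ++ (j.2, true) :: L2 ∧ j.1 = p (.mk L2) := by
  classical
  intro L
  induction L with
  | nil =>
    intro j h
    exfalso
    have h1 : (FreeGroup.mk [] : FreeGroup X) = 1 := rfl
    rw [h1, ch_one] at h
    simp at h
  | cons a L ih =>
    intro j h
    obtain ⟨s, b⟩ := a
    cases b with
    | false =>
      rw [mk_cons_false, ch_mul, ch_of_inv, Finsupp.add_apply, mul_one, Finsupp.neg_apply] at h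
      have h1 : 0 ≤ (Finsupp.single ((p (.of s))⁻¹ * p (.mk L), s) (1 : ℤ)) j := by
        rw [Finsupp.single_apply]; split_ifs <;> norm_num
      obtain ⟨L1, L2, h2, h3⟩ := ih j (by omega)
      exact ⟨(s, false) :: L1, L2, by rw [h2]; rfl, h3⟩
    | true =>
      rw [mk_cons_true, ch_mul, ch_of, Finsupp.add_apply, mul_one, Finsupp.single_apply] at h
      split_ifs at h with h1
      · refine ⟨[], L, ?_, ?_⟩
        · rw [← h1]; rfl
        · rw [← h1]
      · obtain ⟨L1, L2, h2, h3⟩ := ih j (by omega)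
        exact ⟨(s, true) :: L1, L2, by rw [h2]; rfl, h3⟩

lemma short_aux [DecidableEq X] {L1 : List (X × Bool)} {L : List (X × Bool)} (hL : FreeGroup.IsReduced L)
    (h : L1 <:+: L) (hne : L1 ≠ []) (hlt : L1.length < L.length) {w : FreeGroup X}
    (hw : w.toWord = L) : (FreeGroup.mk L1 : FreeGroup X) ≠ 1 ∧
      (FreeGroup.mk L1 : FreeGroup X).norm < w.norm := by
  have h1 : FreeGroup.IsReduced L1 := by
    obtain ⟨s, t, h3⟩ := h
    rw [← h3] at hL
    have h4 := (List.isChain_append.1 hL).1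
    exact (List.isChain_append.1 h4).2.1
  have h2 : (FreeGroup.mk L1 : FreeGroup X).toWord = L1 := by
    rw [FreeGroup.toWord_mk, h1.reduce_eq]
  constructor
  · intro h3
    rw [h3, FreeGroup.toWord_one] at h2
    exact hne h2.symm
  · rw [FreeGroup.norm, FreeGroup.norm, h2, hw]
    exact hlt

/-- a non-trivial loop without homology contains a shorter non-trivial loop -/
lemma exists_shorter [DecidableEq X] {w : FreeGroup X} (hw : w ≠ 1) (h1 : p w = 1) (h0 : ch p w 1 = 0) :
    ∃ w' : FreeGroup X, p w' = 1 ∧ w' ≠ 1 ∧ w'.norm < w.norm := by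
  have hred : FreeGroup.IsReduced w.toWord := FreeGroup.isReduced_toWord
  have hmk : FreeGroup.mk w.toWord = w := FreeGroup.mk_toWord
  rcases hL : w.toWord with _ | ⟨⟨s, b⟩, L⟩
  · exact absurd (FreeGroup.toWord_eq_nil_iff.1 hL) hw
  rw [hL] at hred hmk
  cases b with
  | true =>
    rw [mk_cons_true] at hmk
    have h2 := DFunLike.congr_fun h0 (p (.mk L), s)
    rw [← hmk, ch_mul, ch_of, Finsupp.add_apply, mul_one, Finsupp.single_eq_same,
      Finsupp.zero_apply] at h2
    obtain ⟨L1, L2, h3, h4⟩ := ch_neg p L (p (.mk L), s) (by omega)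
    dsimp only at h3 h4
    have h5 : (FreeGroup.mk L : FreeGroup X) = .mk L1 * ((.of s)⁻¹ * .mk L2) := by
      rw [h3, ← mk_cons_false, FreeGroup.mul_mk]
    have h6 : p (.mk L1) = 1 := by
      rw [h5, map_mul, map_mul, map_inv] at h4
      exact mul_eq_right.1 h4
    have hne : L1 ≠ [] := by
      rintro rfl
      rw [List.nil_append] at h3
      rw [h3, FreeGroup.isReduced_cons_cons] at hred
      exact absurd (hred.1 rfl) (by simp)
    obtain ⟨h7, h8⟩ := short_aux hred (L1 := L1) ⟨[(s, true)], (s, false) :: L2, by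
      rw [h3]; simp⟩ hne (by rw [h3]; simp) hL
    exact ⟨_, h6, h7, h8⟩
  | false =>
    rw [mk_cons_false] at hmk
    have h2 := DFunLike.congr_fun h0 ((p (.of s))⁻¹ * p (.mk L), s)
    rw [← hmk, ch_mul, ch_of_inv, Finsupp.add_apply, mul_one, Finsupp.neg_apply,
      Finsupp.single_eq_same, Finsupp.zero_apply] at h2
    obtain ⟨L1, L2, h3, h4⟩ := ch_pos p L ((p (.of s))⁻¹ * p (.mk L), s) (by omega)
    dsimp only at h3 h4
    have h5 : (FreeGroup.mk L : FreeGroup X) = .mk L1 * (.of s * .mk L2) := by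
      rw [h3, ← mk_cons_true, FreeGroup.mul_mk]
    have h6 : p (.mk L1) = 1 := by
      rw [h5, map_mul, map_mul, inv_mul_eq_iff_eq_mul] at h4
      exact mul_eq_right.1 h4
    have hne : L1 ≠ [] := by
      rintro rfl
      rw [List.nil_append] at h3
      rw [h3, FreeGroup.isReduced_cons_cons] at hred
      exact absurd (hred.1 rfl) (by simp)
    obtain ⟨h7, h8⟩ := short_aux hred (L1 := L1) ⟨[(s, false)], (s, true) :: L2, by
      rw [h3]; simp⟩ hne (by rw [h3]; simp) hL
    exact ⟨_, h6, h7, h8⟩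

end Short

section Up

variable {X : Type u}

/-- the loops of `F / N` without homology -/
def up (N : Subgroup (FreeGroup X)) [N.Normal] : Subgroup (FreeGroup X) where
  carrier := {w | w ∈ N ∧ ch (QuotientGroup.mk' N) w 1 = 0}
  one_mem' := ⟨N.one_mem, ch_one _ _⟩
  mul_mem' := by
    rintro a b ⟨ha, ha'⟩ ⟨hb, hb'⟩
    refine ⟨N.mul_mem ha hb, ?_⟩
    rw [ch_mul_ker _ ((QuotientGroup.eq_one_iff b).2 hb), ha', hb', add_zero]
  inv_mem' := by
    rintro a ⟨ha, ha'⟩
    refine ⟨N.inv_mem ha, ?_⟩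
    have h1 : QuotientGroup.mk' N a = 1 := (QuotientGroup.eq_one_iff a).2 ha
    rw [ch_inv, h1, inv_one, one_mul, ha', neg_zero]

lemma mem_up {N : Subgroup (FreeGroup X)} [N.Normal] {w : FreeGroup X} :
    w ∈ up N ↔ w ∈ N ∧ ch (QuotientGroup.mk' N) w 1 = 0 := Iff.rfl

instance up_normal (N : Subgroup (FreeGroup X)) [hN : N.Normal] : (up N).Normal where
  conj_mem := by
    rintro w ⟨hw, hw'⟩ g
    refine ⟨hN.conj_mem _ hw g, ?_⟩
    rw [ch_conj _ ((QuotientGroup.eq_one_iff w).2 hw), hw', Finsupp.mapDomain_zero]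

/-- the edge count as a homomorphism on `N` -/
noncomputable def chHom (N : Subgroup (FreeGroup X)) [N.Normal] :
    N →* Multiplicative ((FreeGroup X ⧸ N) × X →₀ ℤ) where
  toFun w := Multiplicative.ofAdd (ch (QuotientGroup.mk' N) w.1 1)
  map_one' := by simp [ch_one]
  map_mul' a b := by
    have h := ch_mul_ker (QuotientGroup.mk' N) (x := a.1) (y := b.1)
      ((QuotientGroup.eq_one_iff b.1).2 b.2) 1
    rw [Subgroup.coe_mul, h, ofAdd_add]

lemma RC_bot_mul (ι : Type u) : CRO.RC (⊥ : Subgroup (Multiplicative (ι →₀ ℤ))) := by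
  obtain ⟨M, hM, h⟩ := CRO.RC_isolator (⊥ : Subgroup (Multiplicative (ι →₀ ℤ)))
  have h1 : M = ⊥ := by
    rw [eq_bot_iff]
    intro x hx
    obtain ⟨n, hn, h2⟩ := (h x).1 hx
    rw [Subgroup.mem_bot] at h2 ⊢
    have h3 : n • Multiplicative.toAdd x = 0 := by
      rw [← toAdd_pow, h2, toAdd_one]
    have h4 : Multiplicative.toAdd x = 0 := by
      ext i
      have h5 := DFunLike.congr_fun h3 i
      simp only [Finsupp.smul_apply, Finsupp.zero_apply, nsmul_eq_mul, mul_eq_zero,
        Nat.cast_eq_zero] at h5 ⊢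
      rcases h5 with h5 | h5
      · exact absurd h5 hn
      · exact h5
    exact h4
  rw [← h1]
  exact hM

lemma RC_up (N : Subgroup (FreeGroup X)) [N.Normal] (h : CRO.RC N) : CRO.RC (up N) := by
  have h1 : CRO.RC ((chHom N).ker) := by
    have h2 := (RC_bot_mul ((FreeGroup X ⧸ N) × X)).comap (chHom N)
    exact h2
  have h3 := h.trans h1
  have h4 : (chHom N).ker.map N.subtype = up N := by
    ext w
    constructor
    · rintro ⟨x, hx, rfl⟩
      exact ⟨x.2, hx⟩
    · rintro ⟨hw, hw'⟩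
      exact ⟨⟨w, hw⟩, hw', rfl⟩
  rw [h4] at h3
  exact h3

lemma comm_mem_up {N : Subgroup (FreeGroup X)} [N.Normal] {u v : FreeGroup X} (hu : u ∈ N)
    (hv : v ∈ N) : ⁅u, v⁆ ∈ up N := by
  have hu1 : QuotientGroup.mk' N u = 1 := (QuotientGroup.eq_one_iff u).2 hu
  have hv1 : QuotientGroup.mk' N v = 1 := (QuotientGroup.eq_one_iff v).2 hv
  refine ⟨?_, ?_⟩
  · rw [commutatorElement_def]
    exact N.mul_mem (N.mul_mem (N.mul_mem hu hv) (N.inv_mem hu)) (N.inv_mem hv)
  · rw [commutatorElement_def]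
    simp only [ch_mul, ch_inv, hu1, hv1, map_inv, inv_one, mul_one]
    abel

variable (X) in
/-- the tower -/
def tow : ℕ → {N : Subgroup (FreeGroup X) // N.Normal ∧ CRO.RC N}
  | 0 => ⟨⊤, inferInstance, CRO.RC_top⟩
  | n + 1 =>
    haveI := (tow n).2.1
    ⟨up (tow n).1, inferInstance, RC_up _ (tow n).2.2⟩

instance tow_normal (n : ℕ) : (tow X n).1.Normal := (tow X n).2.1

lemma tow_succ (n : ℕ) : (tow X (n + 1)).1 = up (tow X n).1 := rfl

lemma notMem_tow [DecidableEq X] : ∀ (n : ℕ) (w : FreeGroup X), w ≠ 1 → w.norm ≤ n → w ∉ (tow X n).1 := by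
  intro n
  induction n with
  | zero =>
    intro w hw hn
    exact absurd (FreeGroup.norm_eq_zero.1 (Nat.le_zero.1 hn)) hw
  | succ n ih =>
    intro w hw hn hmem
    rw [tow_succ, mem_up] at hmem
    obtain ⟨w', h1, h2, h3⟩ := exists_shorter (QuotientGroup.mk' (tow X n).1) hw
      ((QuotientGroup.eq_one_iff w).2 hmem.1) hmem.2
    exact ih w' h2 (by omega) ((QuotientGroup.eq_one_iff w').1 h1)

lemma exists_level {w : FreeGroup X} (hw : w ≠ 1) :
    ∃ n, w ∈ (tow X n).1 ∧ w ∉ up (tow X n).1 := by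
  classical
  have hex : ∃ n, w ∉ (tow X n).1 := ⟨w.norm, notMem_tow _ w hw le_rfl⟩
  have h1 := Nat.find_spec hex
  have h0 : Nat.find hex ≠ 0 := by
    intro h
    rw [h] at h1
    exact h1 (Subgroup.mem_top w)
  obtain ⟨n, hn⟩ := Nat.exists_eq_succ_of_ne_zero h0
  refine ⟨n, ?_, ?_⟩
  · by_contra hc
    have := Nat.find_min' hex hc
    omega
  · rw [hn] at h1
    exact h1

/-- free groups are right-orderable -/
lemma RC_bot_free : CRO.RC (⊥ : Subgroup (FreeGroup X)) := by
  classical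
  have h := CRO.RC.iInf (fun n => (tow X n).1) (fun n => (tow X n).2.2)
  have h1 : (⨅ n, (tow X n).1) = ⊥ := by
    rw [eq_bot_iff]
    intro w hw
    by_contra hc
    rw [Subgroup.mem_iInf] at hw
    exact notMem_tow w.norm w (fun h => hc (Subgroup.mem_bot.2 h)) le_rfl (hw _)
  rw [h1] at h
  exact h

end Up

end LFO
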