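import Mathlib

/-!
Holonomy of edge labellings of the Cayley graph of a quotient of a free group.
-/

namespace LFO

universe u v w

variable {X : Type u} {Q : Type v} [Group Q] (p : FreeGroup X →* Q) {A : Type w} [Group A]

/-- the step of a generator on labelled vertices -/
def stepP (L : Q × X → A) (s : X) : Equiv.Perm (Q × A) where
  toFun z := (p (.of s) * z.1, L (z.1, s) * z.2)
  invFun z := ((p (.of s))⁻¹ * z.1, (L ((p (.of s))⁻¹ * z.1, s))⁻¹ * z.2)
  left_inv z := by simp
  right_inv z := by simp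

/-- the walk of a word on labelled vertices -/
def walk (L : Q × X → A) : FreeGroup X →* Equiv.Perm (Q × A) := FreeGroup.lift (stepP p L)

/-- the holonomy of a word along the path that starts at the vertex `u` -/
def hol (L : Q × X → A) (w : FreeGroup X) (u : Q) : A := (walk p L w (u, 1)).2

lemma walk_of (L : Q × X → A) (s : X) (z : Q × A) :
    walk p L (.of s) z = (p (.of s) * z.1, L (z.1, s) * z.2) := by
  simp [walk, stepP]

lemma walk_of_inv (L : Q × X → A) (s : X) (z : Q × A) :
    walk p L (.of s)⁻¹ z =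
      ((p (.of s))⁻¹ * z.1, (L ((p (.of s))⁻¹ * z.1, s))⁻¹ * z.2) := by
  rw [map_inv, Equiv.Perm.inv_eq_iff_eq, walk_of]
  simp

lemma walk_apply (L : Q × X → A) (w : FreeGroup X) : ∀ (u : Q) (a : A),
    walk p L w (u, a) = (p w * u, hol p L w u * a) := by
  induction w with
  | C1 => intro u a; simp [hol]
  | of s => intro u a; simp [hol, walk_of]
  | inv_of s _ =>
    intro u a
    rw [hol, walk_of_inv, walk_of_inv, map_inv]
    simp
  | mul x y hx hy =>
    intro u a
    have h1 : hol p L (x * y) u = hol p L x (p y * u) * hol p L y u := by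
      rw [hol, map_mul, Equiv.Perm.mul_apply, hy, hx, mul_one]
    rw [map_mul, Equiv.Perm.mul_apply, hy, hx, h1, map_mul, mul_assoc, mul_assoc]

lemma hol_one (L : Q × X → A) (u : Q) : hol p L 1 u = 1 := by simp [hol]

lemma hol_of (L : Q × X → A) (s : X) (u : Q) : hol p L (.of s) u = L (u, s) := by
  simp [hol, walk_of]

lemma hol_of_inv (L : Q × X → A) (s : X) (u : Q) :
    hol p L (.of s)⁻¹ u = (L ((p (.of s))⁻¹ * u, s))⁻¹ := by
  rw [hol, walk_of_inv, mul_one]

lemma hol_mul (L : Q × X → A) (x y : FreeGroup X) (u : Q) :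
    hol p L (x * y) u = hol p L x (p y * u) * hol p L y u := by
  rw [hol, map_mul, Equiv.Perm.mul_apply, walk_apply, walk_apply, mul_one]

lemma hol_inv (L : Q × X → A) (x : FreeGroup X) (u : Q) :
    hol p L x⁻¹ u = (hol p L x ((p x)⁻¹ * u))⁻¹ := by
  have h := hol_mul p L x x⁻¹ u
  rw [mul_inv_cancel, hol_one, map_inv] at h
  exact (inv_eq_of_mul_eq_one_right h.symm).symm

/-- the signed edge count of the path of `w` that starts at `u` -/
noncomputable def ch (w : FreeGroup X) (u : Q) : Q × X →₀ ℤ :=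
  Multiplicative.toAdd
    (hol p (fun j => Multiplicative.ofAdd (Finsupp.single j (1 : ℤ))) w u)

lemma ch_one (u : Q) : ch p 1 u = 0 := by simp [ch, hol_one]

lemma ch_of (s : X) (u : Q) : ch p (.of s) u = Finsupp.single (u, s) 1 := by
  simp [ch, hol_of]

lemma ch_of_inv (s : X) (u : Q) :
    ch p (.of s)⁻¹ u = -Finsupp.single ((p (.of s))⁻¹ * u, s) 1 := by
  simp [ch, hol_of_inv]

lemma ch_mul (x y : FreeGroup X) (u : Q) :
    ch p (x * y) u = ch p x (p y * u) + ch p y u := by
  simp [ch, hol_mul]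

lemma ch_inv (x : FreeGroup X) (u : Q) : ch p x⁻¹ u = -ch p x ((p x)⁻¹ * u) := by
  simp [ch, hol_inv]

/-- right translation of edges -/
def tr (g : Q) (j : Q × X) : Q × X := (j.1 * g, j.2)

lemma tr_injective (g : Q) : Function.Injective (tr g : Q × X → Q × X) := by
  rintro ⟨a, s⟩ ⟨b, t⟩ h
  simp only [tr, Prod.mk.injEq] at h
  exact Prod.ext (mul_right_cancel h.1) h.2

lemma ch_tr (w : FreeGroup X) (g : Q) : ∀ u : Q,
    ch p w (u * g) = (ch p w u).mapDomain (tr g) := by
  induction w with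
  | C1 => intro u; simp [ch_one]
  | of s => intro u; simp [ch_of, Finsupp.mapDomain_single, tr]
  | inv_of s _ =>
    intro u
    rw [ch_of_inv, ch_of_inv, ← mul_assoc]
    have h : Finsupp.mapDomain (tr g) (-Finsupp.single ((p (.of s))⁻¹ * u, s) (1 : ℤ)) =
        -Finsupp.mapDomain (tr g) (Finsupp.single ((p (.of s))⁻¹ * u, s) (1 : ℤ)) :=
      map_neg (Finsupp.mapDomain.addMonoidHom (tr g)) _
    rw [h, Finsupp.mapDomain_single]
    rfl
  | mul x y hx hy =>
    intro u
    rw [ch_mul, ch_mul, ← mul_assoc, hx, hy, Finsupp.mapDomain_add]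

lemma ch_mul_ker {x y : FreeGroup X} (hy : p y = 1) (u : Q) :
    ch p (x * y) u = ch p x u + ch p y u := by
  rw [ch_mul, hy, one_mul]

lemma ch_conj {x g : FreeGroup X} (hx : p x = 1) :
    ch p (g * x * g⁻¹) 1 = (ch p x 1).mapDomain (tr (p g)⁻¹) := by
  rw [ch_mul, ch_mul, hx, one_mul, ch_inv, map_inv, mul_one, ← ch_tr, one_mul]
  abel

end LFO
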